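import Pool.Agent.H31.DPD.Targets

/-!
# Board dpd_modules, row KC: refining the residue classes of the sides of the cubes
-/

set_option autoImplicit false

open Finset Filter Topology

namespace Pool.Agent.H49.DPD

open Pool.Agent.H31.DP Pool.Agent.H31.DPD

/-- the subsets without and with the first element -/
theorem prod_cube {β : Type*} [CommMonoid β] (d : ℕ) (f : Finset (Fin (d + 1)) → β) :
    ∏ I, f I = (∏ J : Finset (Fin d), f (J.image Fin.succ)) *
      ∏ J : Finset (Fin d), f (insert 0 (J.image Fin.succ)) := by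
  have h1 : (Finset.univ : Finset (Fin (d + 1))) =
      insert 0 ((Finset.univ : Finset (Fin d)).image Fin.succ) := by
    ext i
    refine Fin.cases ?_ (fun i => ?_) i <;> simp
  have h0 : (0 : Fin (d + 1)) ∉ (Finset.univ : Finset (Fin d)).image Fin.succ := by
    simp
  have hinj : Function.Injective fun J : Finset (Fin d) => J.image Fin.succ :=
    Finset.image_injective (Fin.succ_injective d)
  rw [← Finset.powerset_univ, h1, Finset.prod_powerset_insert h0, Finset.powerset_image,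
    Finset.prod_image hinj.injOn, Finset.prod_image hinj.injOn, Finset.powerset_univ]

theorem sI_succ {d : ℕ} (s₀ : ℤ) (s : Fin d → ℤ) (J : Finset (Fin d)) :
    sI (Fin.cons s₀ s : Fin (d + 1) → ℤ) (J.image Fin.succ) = sI s J := by
  unfold sI
  rw [Finset.sum_image (fun _ _ _ _ h => Fin.succ_injective d h)]
  exact Finset.sum_congr rfl fun i _ => Fin.cons_succ _ _ _

theorem zero_notMem {d : ℕ} (J : Finset (Fin d)) : (0 : Fin (d + 1)) ∉ J.image Fin.succ := by
  simp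

theorem sI_insert {d : ℕ} (s₀ : ℤ) (s : Fin d → ℤ) (J : Finset (Fin d)) :
    sI (Fin.cons s₀ s : Fin (d + 1) → ℤ) (insert 0 (J.image Fin.succ)) = s₀ + sI s J := by
  have h := sI_succ s₀ s J
  unfold sI at h ⊢
  rw [Finset.sum_insert (zero_notMem J), h]
  rfl

theorem card_succ {d : ℕ} (J : Finset (Fin d)) : (J.image Fin.succ).card = J.card :=
  Finset.card_image_of_injective _ (Fin.succ_injective d)

theorem AC_cons {d : ℕ} (a : ℤ → ℂ) (s₀ : ℤ) (s : Fin d → ℤ) (y : ℤ) :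
    AC a (Fin.cons s₀ s : Fin (d + 1) → ℤ) y =
      AC a s y * (starRingEnd ℂ) (AC a s (y + s₀)) := by
  unfold AC
  rw [prod_cube, map_prod]
  congr 1
  · refine Finset.prod_congr rfl fun J _ => ?_
    rw [sI_succ, card_succ]
  · refine Finset.prod_congr rfl fun J _ => ?_
    rw [sI_insert, Finset.card_insert_of_notMem (zero_notMem J), card_succ, ← add_assoc]
    by_cases h : Even J.card
    · rw [if_pos h, if_neg (by rw [Nat.even_add_one]; exact not_not.2 h)]
    · rw [if_neg h, if_pos (by rw [Nat.even_add_one]; exact h), Complex.conj_conj]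

theorem mem_IC_cons {d : ℕ} (M : ℕ) (s₀ : ℤ) (s : Fin d → ℤ) (y : ℤ) :
    y ∈ IC M (Fin.cons s₀ s : Fin (d + 1) → ℤ) ↔ y ∈ IC M s ∧
      ∀ J : Finset (Fin d), 1 ≤ y + s₀ + sI s J ∧ y + s₀ + sI s J ≤ M := by
  unfold IC
  simp only [Finset.mem_filter]
  constructor
  · rintro ⟨h1, h2⟩
    refine ⟨⟨h1, fun J => ?_⟩, fun J => ?_⟩
    · have h3 := h2 (J.image Fin.succ)
      rwa [sI_succ] at h3
    · have h3 := h2 (insert 0 (J.image Fin.succ))
      rwa [sI_insert, ← add_assoc] at h3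
  · rintro ⟨⟨h1, h2⟩, h3⟩
    refine ⟨h1, fun I => ?_⟩
    by_cases h0 : (0 : Fin (d + 1)) ∈ I
    · obtain ⟨J, rfl⟩ : ∃ J : Finset (Fin d), I = insert 0 (J.image Fin.succ) := by
        refine ⟨Finset.univ.filter fun j => Fin.succ j ∈ I, ?_⟩
        ext i
        refine Fin.cases ?_ (fun i => ?_) i
        · simp [h0]
        · simp [Fin.succ_ne_zero]
      rw [sI_insert, ← add_assoc]
      exact h3 J
    · obtain ⟨J, rfl⟩ : ∃ J : Finset (Fin d), I = J.image Fin.succ := by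
        refine ⟨Finset.univ.filter fun j => Fin.succ j ∈ I, ?_⟩
        ext i
        refine Fin.cases ?_ (fun i => ?_) i
        · simp [h0]
        · simp
      rw [sI_succ]
      exact h2 J

theorem mem_IC_cons' {d : ℕ} (M : ℕ) (s₀ : ℤ) (s : Fin d → ℤ) (y : ℤ) :
    y ∈ IC M (Fin.cons s₀ s : Fin (d + 1) → ℤ) ↔ y ∈ IC M s ∧ y + s₀ ∈ IC M s := by
  rw [mem_IC_cons]
  constructor
  · rintro ⟨h1, h2⟩
    refine ⟨h1, ?_⟩
    unfold IC
    rw [Finset.mem_filter, Finset.mem_Icc]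
    have h3 := h2 ∅
    have h4 : sI s ∅ = 0 := by unfold sI; exact Finset.sum_empty
    rw [h4, add_zero] at h3
    exact ⟨h3, h2⟩
  · rintro ⟨h1, h2⟩
    refine ⟨h1, ?_⟩
    unfold IC at h2
    exact (Finset.mem_filter.1 h2).2

theorem sum_mulc_succ {β : Type*} [AddCommMonoid β] (d D M : ℕ) (f : (Fin (d + 1) → ℤ) → β) :
    ∑ s ∈ mulc (d + 1) D M, f s =
      ∑ s₀ ∈ mul D M, ∑ s ∈ mulc d D M, f (Fin.cons s₀ s) := by
  rw [← Finset.sum_product']
  apply Finset.sum_nbij' (fun t => (t 0, Fin.tail t)) (fun x => Fin.cons x.1 x.2)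
  · intro t ht
    unfold mulc at ht ⊢
    rw [Fintype.mem_piFinset] at ht
    rw [Finset.mem_product, Fintype.mem_piFinset]
    exact ⟨ht 0, fun i => ht i.succ⟩
  · rintro ⟨s, t⟩ hx
    unfold mulc at hx ⊢
    rw [Finset.mem_product, Fintype.mem_piFinset] at hx
    rw [Fintype.mem_piFinset]
    intro i
    refine Fin.cases ?_ (fun i => ?_) i
    · rw [Fin.cons_zero]
      exact hx.1
    · rw [Fin.cons_succ]
      exact hx.2 i
  · intro t _
    exact Fin.cons_self_tail t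
  · rintro ⟨s, t⟩ _
    simp
  · intro t _
    rw [Fin.cons_self_tail]

open Classical in
/-- the twisted function -/
noncomputable def tw (a : ℤ → ℂ) (M : ℕ) (s₀ : ℤ) (z : ℤ) : ℂ :=
  if 1 ≤ z + s₀ ∧ z + s₀ ≤ M then a z * (starRingEnd ℂ) (a (z + s₀)) else 0

theorem sum_cons {d : ℕ} (a : ℤ → ℂ) (M : ℕ) (s₀ : ℤ) (s : Fin d → ℤ) :
    ∑ y ∈ IC M (Fin.cons s₀ s : Fin (d + 1) → ℤ), AC a (Fin.cons s₀ s : Fin (d + 1) → ℤ) y =
      ∑ y ∈ IC M s, AC (tw a M s₀) s y := by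
  classical
  have h1 : IC M (Fin.cons s₀ s : Fin (d + 1) → ℤ) = (IC M s).filter fun y =>
      ∀ J : Finset (Fin d), 1 ≤ y + s₀ + sI s J ∧ y + s₀ + sI s J ≤ M := by
    ext y
    rw [mem_IC_cons, Finset.mem_filter]
  rw [h1, Finset.sum_filter]
  refine Finset.sum_congr rfl fun y _ => ?_
  by_cases h : ∀ J : Finset (Fin d), 1 ≤ y + s₀ + sI s J ∧ y + s₀ + sI s J ≤ M
  · rw [if_pos h, AC_cons]
    unfold AC
    rw [map_prod, ← Finset.prod_mul_distrib]
    refine Finset.prod_congr rfl fun J _ => ?_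
    have h2 : 1 ≤ y + sI s J + s₀ ∧ y + sI s J + s₀ ≤ M := by
      have h3 := h J
      rw [show y + sI s J + s₀ = y + s₀ + sI s J by ring]
      exact h3
    have h3 : y + s₀ + sI s J = y + sI s J + s₀ := by ring
    unfold tw
    rw [if_pos h2, h3]
    by_cases he : Even J.card
    · rw [if_pos he, if_pos he, if_pos he]
    · rw [if_neg he, if_neg he, if_neg he, map_mul, Complex.conj_conj]
  · rw [if_neg h]
    push Not at h
    obtain ⟨J, hJ⟩ := h
    unfold AC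
    symm
    refine Finset.prod_eq_zero (Finset.mem_univ J) ?_
    have h2 : ¬ (1 ≤ y + sI s J + s₀ ∧ y + sI s J + s₀ ≤ M) := by
      rintro ⟨h3, h4⟩
      have h5 := hJ (by linarith)
      linarith
    unfold tw
    rw [if_neg h2, map_zero, ite_self]

theorem re_sum {d : ℕ} (hKA : StatementKA) (a : ℤ → ℂ) (M D : ℕ) (hD : 0 < D) (s : Fin d → ℤ) :
    ∃ b : ℤ → ℂ, (∀ y, b y = if y ∈ IC M s then AC a s y else 0) ∧
    (∑ s₀ ∈ mul D M, ∑ y ∈ IC M (Fin.cons s₀ s : Fin (d + 1) → ℤ),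
      AC a (Fin.cons s₀ s : Fin (d + 1) → ℤ) y).re =
      ∑ r ∈ Finset.range D, ‖cls b M D r‖ ^ 2 := by
  refine ⟨fun y => if y ∈ IC M s then AC a s y else 0, fun _ => rfl, ?_⟩
  set b : ℤ → ℂ := fun y => if y ∈ IC M s then AC a s y else 0 with hb
  have h1 : ∀ s₀ : ℤ, ∑ y ∈ IC M (Fin.cons s₀ s : Fin (d + 1) → ℤ),
      AC a (Fin.cons s₀ s : Fin (d + 1) → ℤ) y = (starRingEnd ℂ) (corr b M s₀) := by
    intro s₀
    unfold corr
    rw [map_sum]
    have h2 : IC M (Fin.cons s₀ s : Fin (d + 1) → ℤ) ⊆ IM M s₀ := by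
      intro y hy
      rw [mem_IC_cons'] at hy
      unfold IC at hy
      unfold IM
      rw [Finset.mem_filter, Finset.mem_filter, Finset.mem_Icc] at hy
      rw [Finset.mem_filter]
      exact ⟨Finset.mem_Icc.2 hy.1.1, Finset.mem_Icc.1 hy.2.1⟩
    refine Finset.sum_subset_zero_on_sdiff h2 ?_ ?_
    · intro y hy
      rw [Finset.mem_sdiff] at hy
      have h3 := hy.2
      rw [mem_IC_cons'] at h3
      simp only [hb]
      by_cases h4 : y ∈ IC M s
      · by_cases h5 : y + s₀ ∈ IC M s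
        · exact absurd ⟨h4, h5⟩ h3
        · rw [if_neg h5, mul_zero, map_zero]
      · rw [if_neg h4, map_zero, zero_mul, map_zero]
    · intro y hy
      rw [mem_IC_cons'] at hy
      simp only [hb]
      rw [if_pos hy.1, if_pos hy.2, AC_cons, map_mul, Complex.conj_conj]
  have h2 : ∑ s₀ ∈ mul D M, ∑ y ∈ IC M (Fin.cons s₀ s : Fin (d + 1) → ℤ),
      AC a (Fin.cons s₀ s : Fin (d + 1) → ℤ) y =
      (starRingEnd ℂ) ((∑ r ∈ Finset.range D, ‖cls b M D r‖ ^ 2 : ℝ) : ℂ) := by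
    rw [hKA b M D hD, map_sum]
    exact Finset.sum_congr rfl fun s₀ _ => h1 s₀
  rw [h2, Complex.conj_ofReal, Complex.ofReal_re]

theorem step {d : ℕ} (hKA : StatementKA) (hKB : StatementKB) (a : ℤ → ℂ) (M p Q : ℕ)
    (hQ : 0 < Q) (hpQ : p ∣ Q) (s : Fin d → ℤ) :
    (∑ s₀ ∈ mul p M, ∑ y ∈ IC M (Fin.cons s₀ s : Fin (d + 1) → ℤ),
      AC a (Fin.cons s₀ s : Fin (d + 1) → ℤ) y).re ≤
    ((Q : ℝ) / p) * (∑ s₀ ∈ mul Q M, ∑ y ∈ IC M (Fin.cons s₀ s : Fin (d + 1) → ℤ),
      AC a (Fin.cons s₀ s : Fin (d + 1) → ℤ) y).re := by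
  have hp : 0 < p := Nat.pos_of_dvd_of_pos hpQ hQ
  obtain ⟨b, hb, h1⟩ := re_sum hKA a M p hp s
  obtain ⟨b', hb', h2⟩ := re_sum hKA a M Q hQ s
  have h3 : b = b' := funext fun y => (hb y).trans (hb' y).symm
  subst h3
  rw [h1, h2]
  exact hKB b M p Q hQ hpQ

theorem pf_KC (hKA : StatementKA) (hKB : StatementKB) : P_KC := by
  intro d
  induction d with
  | zero =>
    intro a M p Q _ _
    have h1 : mulc 0 p M = mulc 0 Q M := by
      unfold mulc
      ext s
      simp only [Fintype.mem_piFinset]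
      exact ⟨fun _ i => i.elim0, fun _ i => i.elim0⟩
    rw [h1, pow_zero, one_mul]
  | succ d ih =>
    intro a M p Q hQ hpQ
    have hq0 : (0 : ℝ) ≤ (Q : ℝ) / p := by positivity
    rw [sum_mulc_succ, sum_mulc_succ, Finset.sum_comm, Complex.re_sum]
    have h1 : ∀ s ∈ mulc d p M, (∑ s₀ ∈ mul p M,
        ∑ y ∈ IC M (Fin.cons s₀ s : Fin (d + 1) → ℤ),
          AC a (Fin.cons s₀ s : Fin (d + 1) → ℤ) y).re ≤
        ((Q : ℝ) / p) * (∑ s₀ ∈ mul Q M, ∑ y ∈ IC M (Fin.cons s₀ s : Fin (d + 1) → ℤ),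
          AC a (Fin.cons s₀ s : Fin (d + 1) → ℤ) y).re := fun s _ =>
      step hKA hKB a M p Q hQ hpQ s
    refine (Finset.sum_le_sum h1).trans ?_
    rw [← Finset.mul_sum, ← Complex.re_sum, Finset.sum_comm, Complex.re_sum, Complex.re_sum,
      pow_succ', mul_assoc]
    refine mul_le_mul_of_nonneg_left ?_ hq0
    rw [Finset.mul_sum]
    refine Finset.sum_le_sum fun s₀ _ => ?_
    simp_rw [sum_cons]
    exact ih (tw a M s₀) M p Q hQ hpQ

end Pool.Agent.H49.DPD
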